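import Mathlib

/-!
# Conference matrices: all pairs of columns rotated at once
-/

set_option autoImplicit false

namespace Pool.Agent.Lib_helper41.CF

open Finset Matrix

variable {ι : Type*} [Fintype ι] [DecidableEq ι]

/-- the angle -/
theorem angle' {s : ℝ} (hs : 0 < s) :
    ∃ c t : ℝ, c ^ 2 + t ^ 2 = 1 ∧ c * s + t * s⁻¹ = Real.sqrt (s ^ 2 + (s ^ 2)⁻¹) := by
  obtain ⟨w, hw⟩ : ∃ w : ℝ, w = Real.sqrt (s ^ 4 + 1) := ⟨_, rfl⟩
  have hw2 : w ^ 2 = s ^ 4 + 1 := by rw [hw]; exact Real.sq_sqrt (by positivity)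
  have hw0 : 0 < w := by rw [hw]; exact Real.sqrt_pos.2 (by positivity)
  refine ⟨s ^ 2 / w, 1 / w, ?_, ?_⟩
  · rw [div_pow, div_pow, one_pow, ← add_div, hw2, div_eq_one_iff_eq (by positivity)]
    ring
  · have e : s ^ 2 / w * s + 1 / w * s⁻¹ = w / s := by
      rw [div_mul_eq_mul_div, div_mul_eq_mul_div, ← add_div, one_mul, div_eq_div_iff hw0.ne' hs.ne']
      rw [add_mul, inv_mul_cancel₀ hs.ne', ← sq, hw2]
      ring
    rw [e]
    symm
    rw [Real.sqrt_eq_iff_mul_self_eq (by positivity) (by positivity)]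
    rw [div_mul_div_comm, ← sq, ← sq, hw2]
    field_simp

theorem pairs {n : ℕ} (hn : Fintype.card ι = n) (hn2 : 2 ≤ n) (C : Matrix ι ι ℝ)
    (h0 : ∀ a, C a a = 0)
    (h1 : ∀ a b, a ≠ b → C a b = 1 ∨ C a b = -1) (hC : C * Cᵀ = ((n : ℝ) - 1) • 1)
    (σ : ι → ι) (ε : ι → ℝ) (hσ : ∀ a, σ (σ a) = a) (hσ1 : ∀ a, σ a ≠ a)
    (hε : ∀ a, ε a = 1 ∨ ε a = -1) (hεσ : ∀ a, ε (σ a) = - ε a) :
    ∃ (M A : Matrix ι ι ℝ) (x : ι → ℝ), (∀ a b, M a b = 1 ∨ M a b = -1) ∧
      (∀ v : ι → ℝ, ∑ a, (A.mulVec v a) ^ 2 ≤ ∑ a, v a ^ 2) ∧ ∑ a, x a ^ 2 = 1 ∧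
      Real.sqrt ((n : ℝ) - 1 + ((n : ℝ) - 1)⁻¹) = ∑ a, ∑ b, x a * (M a b * A a b) * x b := by
  have hnR : (2 : ℝ) ≤ n := by exact_mod_cast hn2
  obtain ⟨s, hs⟩ : ∃ s : ℝ, s = Real.sqrt ((n : ℝ) - 1) := ⟨_, rfl⟩
  have hs0 : 0 < s := by rw [hs]; exact Real.sqrt_pos.2 (by linarith)
  have hs2 : s ^ 2 = (n : ℝ) - 1 := by rw [hs]; exact Real.sq_sqrt (by linarith)
  obtain ⟨c, t, hct, hlt⟩ := angle' hs0
  rw [← hs2, ← hlt]
  have hεε : ∀ a, ε a * ε a = 1 := by
    intro a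
    rcases hε a with h | h <;> rw [h] <;> norm_num
  -- the orthogonal matrix
  obtain ⟨O, hO⟩ : ∃ O : Matrix ι ι ℝ, O = s⁻¹ • C := ⟨_, rfl⟩
  have hOa : ∀ a b, O a b = s⁻¹ * C a b := by intro a b; rw [hO]; rfl
  have hOO : O * Oᵀ = 1 := by
    rw [hO, Matrix.transpose_smul, Matrix.smul_mul, Matrix.mul_smul, hC, ← hs2, smul_smul,
      smul_smul]
    rw [show s⁻¹ * s⁻¹ * s ^ 2 = 1 by field_simp, one_smul]
  have hOO' : Oᵀ * O = 1 := mul_eq_one_comm.1 hOO
  have horth : ∀ a b, ∑ k, O k a * O k b = if a = b then 1 else 0 := by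
    intro a b
    have := congrFun (congrFun hOO' a) b
    rw [Matrix.mul_apply, Matrix.one_apply] at this
    simpa [Matrix.transpose_apply] using this
  have hOC : ∀ a b, ∑ k, C k a * O k b = if a = b then s else 0 := by
    intro a b
    have e : ∑ k, C k a * O k b = s * ∑ k, O k a * O k b := by
      rw [mul_sum]
      refine sum_congr rfl fun k _ => ?_
      rw [hOa k a]
      field_simp
    rw [e, horth]
    split_ifs <;> ring
  -- the matrices
  obtain ⟨M, hM⟩ : ∃ M : Matrix ι ι ℝ, ∀ a b, M a b =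
      C a b + if a = b then ε b * C b (σ b) else 0 :=
    ⟨fun a b => C a b + if a = b then ε b * C b (σ b) else 0, fun _ _ => rfl⟩
  obtain ⟨A, hA⟩ : ∃ A : Matrix ι ι ℝ, ∀ a b, A a b = c * O a b + t * (ε b * O a (σ b)) :=
    ⟨fun a b => c * O a b + t * (ε b * O a (σ b)), fun _ _ => rfl⟩
  have hMO : ∀ a b, ∑ k, M k a * O k b = (if a = b then s else 0) + ε a * C a (σ a) * O a b := by
    intro a b
    have e : ∑ k, M k a * O k b = ∑ k, C k a * O k b +
        ∑ k, (if k = a then ε a * C a (σ a) * O a b else 0) := by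
      rw [← sum_add_distrib]
      refine sum_congr rfl fun k _ => ?_
      rw [hM, add_mul]
      split_ifs with h
      · subst h; rfl
      · ring
    rw [e, hOC, sum_ite_eq' univ a, if_pos (mem_univ a)]
  have hO0 : ∀ a, O a a = 0 := by intro a; rw [hOa, h0, mul_zero]
  have hsq : ∀ a b, a ≠ b → C a b * C a b = 1 := by
    intro a b hab
    rcases h1 a b hab with h | h <;> rw [h] <;> norm_num
  obtain ⟨u, hu⟩ : ∃ u : ℝ, u = Real.sqrt (n : ℝ)⁻¹ := ⟨_, rfl⟩
  have hu2 : u ^ 2 = (n : ℝ)⁻¹ := by rw [hu]; exact Real.sq_sqrt (by positivity)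
  -- the involution as an equivalence
  have hinv : Function.Involutive σ := hσ
  refine ⟨M, A, fun _ => u, ?_, ?_, ?_, ?_⟩
  · intro a b
    rw [hM]
    by_cases hab : a = b
    · subst hab
      rw [h0, if_pos rfl, zero_add]
      rcases hε a with h | h <;> rcases h1 a (σ a) (hσ1 a).symm with h' | h' <;> rw [h, h'] <;>
        norm_num
    · rw [if_neg hab, add_zero]
      exact h1 a b hab
  · intro v
    obtain ⟨w, hw⟩ : ∃ w : ι → ℝ, ∀ b, w b = c * v b + t * (ε (σ b) * v (σ b)) := ⟨_, fun _ => rfl⟩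
    have e1 : ∀ a, A.mulVec v a = O.mulVec w a := by
      intro a
      simp only [Matrix.mulVec, dotProduct]
      have e4 : ∑ b, O a b * (t * (ε (σ b) * v (σ b))) = ∑ b, O a (σ b) * (t * (ε b * v b)) := by
        rw [← Equiv.sum_comp hinv.toPerm (fun b => O a b * (t * (ε (σ b) * v (σ b))))]
        refine sum_congr rfl fun b _ => ?_
        simp only [Function.Involutive.coe_toPerm, hσ]
      calc ∑ b, A a b * v b = ∑ b, O a b * (c * v b) + ∑ b, O a (σ b) * (t * (ε b * v b)) := by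
            rw [← sum_add_distrib]
            refine sum_congr rfl fun b _ => ?_
            rw [hA]; ring
        _ = ∑ b, O a b * w b := by
            rw [← e4, ← sum_add_distrib]
            refine sum_congr rfl fun b _ => ?_
            rw [hw]; ring
    have e2 : ∑ a, (O.mulVec w a) ^ 2 = ∑ a, w a ^ 2 := by
      have h3 : (O.mulVec w) ⬝ᵥ (O.mulVec w) = w ⬝ᵥ w := by
        rw [Matrix.dotProduct_mulVec, Matrix.vecMul_mulVec, hOO', Matrix.vecMul_one]
      simp only [dotProduct] at h3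
      simpa [sq] using h3
    have e3 : ∑ a, w a ^ 2 = ∑ a, v a ^ 2 := by
      have h4 : ∑ b, (2 * c * t * (ε (σ b) * v b * v (σ b))) = 0 := by
        have h5 : ∑ b, (2 * c * t * (ε (σ b) * v b * v (σ b))) =
            ∑ b, (2 * c * t * (ε (σ (σ b)) * v (σ b) * v (σ (σ b)))) :=
          (Equiv.sum_comp hinv.toPerm
            (fun b => 2 * c * t * (ε (σ b) * v b * v (σ b)))).symm
        have h6 : ∑ b, (2 * c * t * (ε (σ (σ b)) * v (σ b) * v (σ (σ b)))) =
            - ∑ b, (2 * c * t * (ε (σ b) * v b * v (σ b))) := by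
          rw [← sum_neg_distrib]
          refine sum_congr rfl fun b _ => ?_
          rw [hσ, hεσ]; ring
        linarith
      have h7 : ∑ b, v (σ b) ^ 2 = ∑ b, v b ^ 2 :=
        Equiv.sum_comp hinv.toPerm (fun b => v b ^ 2)
      calc ∑ a, w a ^ 2 = ∑ b, (c ^ 2 * v b ^ 2) + ∑ b, (2 * c * t * (ε (σ b) * v b * v (σ b))) +
            ∑ b, (t ^ 2 * v (σ b) ^ 2) := by
            rw [← sum_add_distrib, ← sum_add_distrib]
            refine sum_congr rfl fun b _ => ?_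
            rw [hw]
            linear_combination (t ^ 2 * v (σ b) ^ 2) * hεε (σ b)
        _ = ∑ a, v a ^ 2 := by
            rw [h4, ← mul_sum, ← mul_sum, h7]
            linear_combination (∑ b, v b ^ 2) * hct
    rw [sum_congr rfl (fun a _ => by rw [e1 a] : ∀ a ∈ (univ : Finset ι),
      (A.mulVec v a) ^ 2 = (O.mulVec w a) ^ 2), e2, e3]
  · rw [sum_const, card_univ, hn, nsmul_eq_mul, hu2]
    exact mul_inv_cancel₀ (by linarith)
  · have e1 : ∑ a, ∑ b, u * (M a b * A a b) * u = u ^ 2 * ∑ b, ∑ a, M a b * A a b := by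
      rw [sum_comm, mul_sum]
      refine sum_congr rfl fun b _ => ?_
      rw [mul_sum]
      refine sum_congr rfl fun a _ => ?_
      ring
    have eb : ∀ b, ∑ a, M a b * A a b = c * s + t * s⁻¹ := by
      intro b
      have h5 : ∑ a, M a b * A a b = c * ∑ a, M a b * O a b +
          t * (ε b * ∑ a, M a b * O a (σ b)) := by
        rw [mul_sum, mul_sum, mul_sum, ← sum_add_distrib]
        refine sum_congr rfl fun a _ => ?_
        rw [hA]; ring
      rw [h5, hMO, hMO, if_pos rfl, if_neg (hσ1 b).symm, hO0, hOa]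
      have q1 := hsq b (σ b) (hσ1 b).symm
      have q2 := hεε b
      linear_combination (t * s⁻¹ * (ε b * ε b)) * q1 + (t * s⁻¹) * q2
    rw [e1, sum_congr rfl (fun b _ => eb b), sum_const, card_univ, hn, nsmul_eq_mul, hu2]
    rw [← mul_assoc, inv_mul_cancel₀ (by linarith : (n : ℝ) ≠ 0), one_mul]

end Pool.Agent.Lib_helper41.CF
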