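import Pool.Agent.Lib_helper97.SN.P1
import Pool.Agent.Lib_helper41.CF.Pairs

/-!
# Conference matrices: the order is even; the bound for `r n`
-/

set_option autoImplicit false

namespace Pool.Agent.Lib_helper41.CF

open Finset Matrix Pool.Agent.Results.MP_c77999_an.StrictMono

theorem split {ι : Type*} [Fintype ι] [DecidableEq ι] {i j : ι} (hij : i ≠ j) (f : ι → ℝ) :
    ∑ b, f b = f i + (f j + ∑ b ∈ (univ.erase i).erase j, f b) := by
  rw [← Finset.add_sum_erase univ f (mem_univ i),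
    ← Finset.add_sum_erase (univ.erase i) f (mem_erase.2 ⟨hij.symm, mem_univ j⟩)]

/-- the order of a conference matrix is even -/
theorem even_order {ι : Type*} [Fintype ι] [DecidableEq ι] {n : ℕ} (hn : Fintype.card ι = n)
    (C : Matrix ι ι ℝ) (h0 : ∀ a, C a a = 0) (h1 : ∀ a b, a ≠ b → C a b = 1 ∨ C a b = -1)
    (hC : C * Cᵀ = ((n : ℝ) - 1) • (1 : Matrix ι ι ℝ)) {i j : ι} (hij : i ≠ j) : Even n := by
  have hn2 : 2 ≤ n := by
    rw [← hn]
    exact Fintype.one_lt_card_iff.2 ⟨i, j, hij⟩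
  have h2 : ∑ b, C i b * C j b = 0 := by
    have := congrFun (congrFun hC i) j
    rw [Matrix.mul_apply, Matrix.smul_apply, Matrix.one_apply_ne hij, smul_zero] at this
    simpa [Matrix.transpose_apply] using this
  rw [split hij (fun b => C i b * C j b), h0, h0, zero_mul, mul_zero, zero_add, zero_add] at h2
  have h3 : ∀ b ∈ (univ.erase i).erase j, C i b * C j b =
      1 - 2 * ((if C i b * C j b = 1 then 0 else 1 : ℕ) : ℝ) := by
    intro b hb
    rw [mem_erase, mem_erase] at hb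
    rcases h1 i b hb.2.1.symm with h | h <;> rcases h1 j b hb.1.symm with h' | h' <;>
      rw [h, h'] <;> norm_num
  rw [sum_congr rfl h3, sum_sub_distrib, ← mul_sum, ← Nat.cast_sum, sum_const, nsmul_eq_mul,
    mul_one] at h2
  have hcard : (((univ.erase i).erase j).card) = n - 2 := by
    rw [card_erase_of_mem (mem_erase.2 ⟨hij.symm, mem_univ j⟩), card_erase_of_mem (mem_univ i),
      card_univ, hn]
    omega
  rw [hcard] at h2
  obtain ⟨K, hK⟩ : ∃ K : ℕ, K = ∑ b ∈ (univ.erase i).erase j,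
    (if C i b * C j b = 1 then 0 else 1 : ℕ) := ⟨_, rfl⟩
  rw [← hK] at h2
  have h4 : n - 2 = 2 * K := by
    have : ((n - 2 : ℕ) : ℝ) = ((2 * K : ℕ) : ℝ) := by push_cast; linarith
    exact_mod_cast this
  exact ⟨K + 1, by omega⟩

/-- a fixed point free involution with signs on a set of even size -/
theorem exists_inv {ι : Type*} [Fintype ι] {n : ℕ} (hn : Fintype.card ι = n) (he : Even n) :
    ∃ (σ : ι → ι) (ε : ι → ℝ), (∀ a, σ (σ a) = a) ∧ (∀ a, σ a ≠ a) ∧
      (∀ a, ε a = 1 ∨ ε a = -1) ∧ ∀ a, ε (σ a) = - ε a := by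
  obtain ⟨m, hm⟩ := he
  have hcard : Fintype.card ι = Fintype.card (Fin m × Bool) := by
    rw [hn, hm, Fintype.card_prod, Fintype.card_fin, Fintype.card_bool]; ring
  obtain ⟨e⟩ : Nonempty (ι ≃ Fin m × Bool) := ⟨Fintype.equivOfCardEq hcard⟩
  refine ⟨fun a => e.symm ((e a).1, !(e a).2), fun a => if (e a).2 then 1 else -1, ?_, ?_, ?_, ?_⟩
  · intro a
    simp
  · intro a h
    have := congrArg e h
    rw [Equiv.apply_symm_apply] at this
    have h2 := congrArg Prod.snd this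
    simp at h2
  · intro a
    by_cases h : (e a).2 = true
    · left; simp only [h, if_true]
    · right; simp only [if_neg h]
  · intro a
    simp only [Equiv.apply_symm_apply]
    by_cases h : (e a).2 = true
    · simp [h]
    · simp [h]

/-- a conference matrix of order `n` gives `√(n - 1 + 1 / (n - 1)) ≤ r n` -/
theorem conf_le {ι : Type*} [Fintype ι] [DecidableEq ι] {n : ℕ} (hn : Fintype.card ι = n)
    (C : Matrix ι ι ℝ) (h0 : ∀ a, C a a = 0) (h1 : ∀ a b, a ≠ b → C a b = 1 ∨ C a b = -1)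
    (hC : C * Cᵀ = ((n : ℝ) - 1) • (1 : Matrix ι ι ℝ)) {i j : ι} (hij : i ≠ j) :
    Real.sqrt ((n : ℝ) - 1 + ((n : ℝ) - 1)⁻¹) ≤ r n := by
  have hn2 : 2 ≤ n := by
    rw [← hn]
    exact Fintype.one_lt_card_iff.2 ⟨i, j, hij⟩
  obtain ⟨σ, ε, a1, a2, a3, a4⟩ := exists_inv hn (even_order hn C h0 h1 hC hij)
  obtain ⟨M, A, x, hM, hA, hx, hlt⟩ := pairs hn hn2 C h0 h1 hC σ ε a1 a2 a3 a4
  rw [hlt]
  exact Pool.Agent.Lib_helper97.SN.lower n hn M A hM hA x x hx hx

theorem conf_lt {n : ℕ} (hn2 : 2 ≤ n) (h : Real.sqrt ((n : ℝ) - 1 + ((n : ℝ) - 1)⁻¹) ≤ r n) :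
    Real.sqrt ((n : ℝ) - 1) < r n := by
  have hnR : (2 : ℝ) ≤ n := by exact_mod_cast hn2
  refine lt_of_lt_of_le (Real.sqrt_lt_sqrt (by linarith) ?_) h
  have : 0 < ((n : ℝ) - 1)⁻¹ := inv_pos.2 (by linarith)
  linarith

end Pool.Agent.Lib_helper41.CF
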